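import Mathlib
import Pool.Agent.Work.MP_cb32b9_nt.Core

namespace Pool.Agent.Results.MP_cb32b9_nt.NoSevenMark

/-- `Bose_2(q,1)`: the residues `a` modulo `q ^ 2 - 1` such that `θ ^ a = θ + v` for some `v` in
the base field `F`. Here `θ` is a unit of the extension field `K`; in the theorem `F` has `q`
elements, `K` has `q ^ 2` elements and `θ` generates the group of units of `K`. -/
def boseSet (q : ℕ) (F : Type*) {K : Type*} [Field F] [Field K] [Algebra F K] (θ : Kˣ) :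
    Set (ZMod (q ^ 2 - 1)) :=
  {a | ∃ v : F, ((θ ^ a.val : Kˣ) : K) = (θ : K) + algebraMap F K v}

/-- The Golomb ruler `T`, as a set of integers. -/
def ruler : Set ℤ := {0, 1, 4, 10, 18, 23, 25}

/-- For every prime power `q`, every integer `m` and every residue `s`, some element of
`T = {0,1,4,10,18,23,25}` reduced modulo `q ^ 2 - 1` lies outside `m * Bose_2(q,1) + s`. -/
theorem result (q : ℕ) (_hq : IsPrimePow q) (F K : Type*) [Field F] [Fintype F] [Field K]
    [Fintype K] [Algebra F K] (hF : Fintype.card F = q) (hK : Fintype.card K = q ^ 2)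
    (θ : Kˣ) (hθ : ∀ x : Kˣ, x ∈ Subgroup.zpowers θ) (m : ℤ) (s : ZMod (q ^ 2 - 1)) :
    ¬ ((fun t : ℤ => (t : ZMod (q ^ 2 - 1))) '' ruler ⊆
      (fun a : ZMod (q ^ 2 - 1) => (m : ZMod (q ^ 2 - 1)) * a + s) '' boseSet q F θ) := by
  classical
  intro hsub
  have hq2 : 2 ≤ q := by
    rw [← hF]; exact Fintype.one_lt_card
  have hM : 0 < q ^ 2 - 1 := by
    have : 2 ^ 2 ≤ q ^ 2 := Nat.pow_le_pow_left hq2 2
    omega
  have : NeZero (q ^ 2 - 1) := ⟨hM.ne'⟩
  have hord : orderOf θ = q ^ 2 - 1 := by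
    rw [orderOf_eq_card_of_forall_mem_zpowers hθ, Nat.card_eq_fintype_card, Fintype.card_units, hK]
  -- the exponential map
  have hadd : ∀ a b : ZMod (q ^ 2 - 1), θ ^ (a + b).val = θ ^ a.val * θ ^ b.val := by
    intro a b
    have h := pow_mod_orderOf θ (a.val + b.val)
    rw [hord] at h
    rw [ZMod.val_add, h, pow_add]
  have hnmul : ∀ (n : ℕ) (a : ZMod (q ^ 2 - 1)),
      θ ^ ((n : ZMod (q ^ 2 - 1)) * a).val = (θ ^ a.val) ^ n := by
    intro n a
    induction n with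
    | zero => simp
    | succ n ih =>
      rw [Nat.cast_succ, add_mul, one_mul, hadd, ih]
      exact (pow_succ _ n).symm
  have key : ∀ t : ℕ, (t : ℤ) ∈ ruler → ∃ (a : ZMod (q ^ 2 - 1)) (v : F),
      (m : ZMod (q ^ 2 - 1)) * a + s = (t : ZMod (q ^ 2 - 1)) ∧
      ((θ ^ a.val : Kˣ) : K) = (θ : K) + algebraMap F K v := by
    intro t ht
    obtain ⟨a, ⟨v, hv⟩, ha⟩ := hsub ⟨(t : ℤ), ht, rfl⟩
    refine ⟨a, v, ?_, hv⟩
    simpa using ha
  obtain ⟨a0, v0, ha0, hv0⟩ := key 0 (by simp [ruler])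
  obtain ⟨a1, v1, ha1, hv1⟩ := key 1 (by simp [ruler])
  set d : ZMod (q ^ 2 - 1) := a1 - a0 with hd
  have hmd : (m : ZMod (q ^ 2 - 1)) * d = 1 := by
    have h0 : (m : ZMod (q ^ 2 - 1)) * a0 + s = 0 := by simpa using ha0
    have h1 : (m : ZMod (q ^ 2 - 1)) * a1 + s = 1 := by simpa using ha1
    rw [hd]; linear_combination h1 - h0
  set g : Kˣ := θ ^ d.val with hg
  set w : Kˣ := θ ^ a0.val with hw
  have hpow : ∀ (t : ℕ) (a : ZMod (q ^ 2 - 1)),
      (m : ZMod (q ^ 2 - 1)) * a + s = (t : ZMod (q ^ 2 - 1)) → θ ^ a.val = w * g ^ t := by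
    intro t a ha
    have h0 : (m : ZMod (q ^ 2 - 1)) * a0 + s = 0 := by simpa using ha0
    have : a = a0 + (t : ZMod (q ^ 2 - 1)) * d := by
      linear_combination d * ha - d * h0 + (a0 - a) * hmd
    rw [this, hadd, hnmul]
  have hval : ∀ t : ℕ, (t : ℤ) ∈ ruler → ∃ v : F,
      (w : K) * (g : K) ^ t = (θ : K) + algebraMap F K v := by
    intro t ht
    obtain ⟨a, v, ha, hv⟩ := key t ht
    refine ⟨v, ?_⟩
    rw [← hv, hpow t a ha]
    simp
  -- `g` is not fixed by the Frobenius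
  let σ : K →ₐ[F] K := FiniteField.frobeniusAlgHom F K
  have hσ : ∀ x : K, σ x = x ^ q := by
    intro x
    simp [σ, FiniteField.frobeniusAlgHom, hF]
  have hne : (g : K) ≠ σ (g : K) := by
    rw [hσ]
    intro h
    have h1 : g ^ (q - 1) = 1 := by
      have h2 : g ^ q = g := by
        ext
        rw [Units.val_pow_eq_pow_val]
        exact h.symm
      have h3 : g ^ (q - 1) * g = 1 * g := by
        rw [← pow_succ, Nat.sub_add_cancel (by omega), h2, one_mul]
      exact mul_right_cancel h3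
    have h4 : θ ^ (((q - 1 : ℕ) : ZMod (q ^ 2 - 1)) * d).val = 1 := by
      rw [hnmul]; exact h1
    have h5 : (q ^ 2 - 1) ∣ (((q - 1 : ℕ) : ZMod (q ^ 2 - 1)) * d).val := by
      have h := orderOf_dvd_of_pow_eq_one h4
      rwa [hord] at h
    have h6 : ((q - 1 : ℕ) : ZMod (q ^ 2 - 1)) * d = 0 := by
      rw [← ZMod.val_eq_zero]
      exact Nat.eq_zero_of_dvd_of_lt h5 (ZMod.val_lt _)
    have h7 : ((q - 1 : ℕ) : ZMod (q ^ 2 - 1)) = 0 := by
      linear_combination (m : ZMod (q ^ 2 - 1)) * h6 - ((q - 1 : ℕ) : ZMod (q ^ 2 - 1)) * hmd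
    rw [ZMod.natCast_eq_zero_iff] at h7
    have h8 := Nat.le_of_dvd (by omega) h7
    have h9 : q * 2 ≤ q ^ 2 := by nlinarith
    omega
  have hg1 : (g : K) - 1 ≠ 0 := by
    intro h
    apply hne
    have : (g : K) = 1 := by linear_combination h
    rw [this, map_one]
  have hsum : ∀ t : ℕ, (t : ℤ) ∈ ruler →
      ∑ k ∈ Finset.range t, (g : K) ^ k = ∑ k ∈ Finset.range t, (σ (g : K)) ^ k := by
    intro t ht
    obtain ⟨u0, hu0⟩ := hval 0 (by simp [ruler])
    obtain ⟨u1, hu1⟩ := hval 1 (by simp [ruler])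
    obtain ⟨ut, hut⟩ := hval t ht
    have hgeom : (∑ k ∈ Finset.range t, (g : K) ^ k) * ((g : K) - 1) = (g : K) ^ t - 1 :=
      geom_sum_mul _ _
    have hA : algebraMap F K (u1 - u0) = (w : K) * ((g : K) - 1) := by
      rw [map_sub]; linear_combination hu0 - hu1
    have hB : algebraMap F K (ut - u0) = (w : K) * ((g : K) ^ t - 1) := by
      rw [map_sub]; linear_combination hu0 - hut
    have hw0 : (w : K) ≠ 0 := w.ne_zero
    have hA0 : algebraMap F K (u1 - u0) ≠ 0 := by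
      rw [hA]; exact mul_ne_zero hw0 hg1
    have hS : ∑ k ∈ Finset.range t, (g : K) ^ k = algebraMap F K ((ut - u0) / (u1 - u0)) := by
      rw [map_div₀, eq_div_iff hA0, hA, hB, ← hgeom]
      ring
    have hS2 : σ (∑ k ∈ Finset.range t, (g : K) ^ k) = ∑ k ∈ Finset.range t, (g : K) ^ k := by
      rw [hS, AlgHom.commutes]
    rw [← hS2, map_sum]
    simp only [map_pow]
  exact Pool.Agent.Work.MP_cb32b9_nt.core (g : K) (σ (g : K)) hne
    (hsum 4 (by simp [ruler])) (hsum 10 (by simp [ruler]))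
    (hsum 23 (by simp [ruler])) (hsum 25 (by simp [ruler]))

end Pool.Agent.Results.MP_cb32b9_nt.NoSevenMark
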